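import Mathlib

namespace Pool.Agent.H519Z.Vino

/-- The Weyl sum `f_k(α; X) = ∑_{1 ≤ x ≤ X} e(α_1 x + ⋯ + α_k x^k)`, with `e(t) = exp(2 π i t)`. -/
noncomputable def weyl (k : ℕ) (α : Fin k → ℝ) (X : ℝ) : ℂ :=
  ∑ x ∈ Finset.Icc 1 ⌊X⌋₊,
    Complex.exp (2 * (Real.pi : ℂ) * Complex.I * ∑ j : Fin k, (α j : ℂ) * (x : ℂ) ^ ((j : ℕ) + 1))

/-- The mean value `M_{s,k}(X; B) = ∫_B |f_k(α; X)|^{2 s} dα`. -/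
noncomputable def meanValue (s : ℝ) (k : ℕ) (X : ℝ) (B : Set (Fin k → ℝ)) : ℝ :=
  ∫ α in B, ‖weyl k α X‖ ^ (2 * s)

end Pool.Agent.H519Z.Vino
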