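import Pool.Agent.H449Z.Weyl

/-! The proof below is helper449's proof of the frozen statement S18512, copied so that this
directory does not import a hand-in. -/

set_option autoImplicit false

namespace Pool.Agent.H519Z.Vino

theorem not_large_measure :
    ¬ (∀ k : ℕ, 1 ≤ k → ∀ s : ℝ, 0 < s → ∀ c : ℝ, 0 < c → ∀ ε : ℝ, 0 < ε →
      ∃ C : ℝ, ∀ X : ℕ, 1 ≤ X → ∀ B : Set (Fin k → ℝ), MeasurableSet B →
        B ⊆ Set.pi Set.univ (fun _ => Set.Ico (0:ℝ) 1) →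
        c * (X:ℝ) ^ (1 - (k:ℝ) * ((k:ℝ) + 1) / 4) ≤ (MeasureTheory.volume B).toReal →
        ∫ α in B, ‖∑ x ∈ Finset.Icc 1 X,
            Complex.exp (2 * (Real.pi:ℂ) * Complex.I *
              ∑ j : Fin k, (α j : ℂ) * (x:ℂ) ^ ((j:ℕ) + 1))‖ ^ (2 * s)
          ≤ C * (X:ℝ) ^ ε * ((X:ℝ) ^ s * (MeasureTheory.volume B).toReal
              + (X:ℝ) ^ (2 * s - (k:ℝ) * ((k:ℝ) + 1) / 2))) := by
  intro H
  obtain ⟨C, hC⟩ := H 2 (by norm_num) 2 (by norm_num) 1 (by norm_num) (1/12) (by norm_num)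
  obtain ⟨n, hn⟩ := exists_nat_gt (12352 * |C| + 2)
  have hC0 := abs_nonneg C
  have hn2 : (2:ℝ) < n := by linarith
  have hn0 : 0 < n := by
    have : (0:ℝ) < n := by linarith
    exact_mod_cast this
  have hn1 : 1 ≤ n := hn0
  set X : ℕ := 8 * n ^ 12 with hXdef
  have hXr : (X:ℝ) = 8 * (n:ℝ) ^ 12 := by rw [hXdef]; push_cast; ring
  have hX0 : 0 < X := by positivity
  have hX0r : (0:ℝ) < X := by exact_mod_cast hX0
  have hnr : (0:ℝ) < n := by linarith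
  have hn1r : (1:ℝ) ≤ n := by linarith
  have hXJ : 2 * ((1 + n ^ 2 * (2 * n ^ 8)) * n ^ 2) ≤ X := by
    have : n ^ 2 ≤ n ^ 12 := Nat.pow_le_pow_right hn1 (by norm_num)
    rw [hXdef]
    nlinarith
  set d : ℝ := 1 / (6 * (X:ℝ) ^ 2) with hd
  have hd0 : 0 < d := by positivity
  have hdq : ∀ t ∈ Finset.Ico (n ^ 8) (2 * n ^ 8), d ≤ 1 / ((1 + n ^ 2 * t : ℕ) : ℝ) := by
    intro t ht
    have ht2 := (Finset.mem_Ico.1 ht).2
    have h1 : 1 + n ^ 2 * t ≤ X := by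
      refine le_trans ?_ hXJ
      have a1 : 1 + n ^ 2 * t ≤ 1 + n ^ 2 * (2 * n ^ 8) := by gcongr
      have a2 : 1 ≤ n ^ 2 := Nat.one_le_pow _ _ hn0
      nlinarith
    have h2 : ((1 + n ^ 2 * t : ℕ) : ℝ) ≤ X := by exact_mod_cast h1
    have h3 : (1:ℝ) ≤ X := by exact_mod_cast hX0
    rw [hd]
    apply one_div_le_one_div_of_le
    · positivity
    · nlinarith
  set S : Set ℝ := Set.Ico 0 (1 / (n:ℝ) ^ 6) ∪
    ⋃ t ∈ Finset.Ico (n ^ 8) (2 * n ^ 8), Pool.Agent.H449Z.Weyl.A (1 + n ^ 2 * t) d with hS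
  have hSm : MeasurableSet S :=
    measurableSet_Ico.union
      (Finset.measurableSet_biUnion _ fun _ _ => Pool.Agent.H449Z.Weyl.A_meas _ _)
  have hn6 : (1:ℝ) ≤ (n:ℝ) ^ 6 := one_le_pow₀ hn1r
  have hS1 : S ⊆ Set.Ico 0 1 := by
    apply Set.union_subset
    · apply Set.Ico_subset_Ico_right
      rw [div_le_one (by positivity)]
      exact hn6
    · intro x hx
      simp only [Set.mem_iUnion] at hx
      obtain ⟨t, ht, hx⟩ := hx
      exact Pool.Agent.H449Z.Weyl.A_sub _ _ (by omega) (hdq t ht) hx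
  have hSfin : MeasureTheory.volume S ≠ ⊤ :=
    ne_top_of_le_ne_top (by simp) (MeasureTheory.measure_mono hS1)
  set M : ℝ := ∑ t ∈ Finset.Ico (n ^ 8) (2 * n ^ 8),
    MeasureTheory.volume.real (Pool.Agent.H449Z.Weyl.A (1 + n ^ 2 * t) d) with hM
  have hMlow : 1 / (n:ℝ) ^ 6 ≤ 384 * M := by
    have h1 : ∀ t ∈ Finset.Ico (n ^ 8) (2 * n ^ 8), (n:ℝ) ^ 10 * d ≤
        MeasureTheory.volume.real (Pool.Agent.H449Z.Weyl.A (1 + n ^ 2 * t) d) := by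
      intro t ht
      rw [Pool.Agent.H449Z.Weyl.A_vol _ _ (by omega) hd0.le (hdq t ht)]
      have a1 := (Finset.mem_Ico.1 ht).1
      have a2 : n ^ 10 ≤ 1 + n ^ 2 * t := by
        calc n ^ 10 = n ^ 2 * n ^ 8 := by ring
          _ ≤ n ^ 2 * t := by gcongr
          _ ≤ 1 + n ^ 2 * t := by omega
      have a3 : (n:ℝ) ^ 10 ≤ ((1 + n ^ 2 * t : ℕ) : ℝ) := by exact_mod_cast a2
      gcongr
    have h2 := Finset.card_nsmul_le_sum _ _ _ h1
    rw [nsmul_eq_mul, Nat.card_Ico, show 2 * n ^ 8 - n ^ 8 = n ^ 8 by omega] at h2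
    have h3 : ((n ^ 8 : ℕ) : ℝ) * ((n:ℝ) ^ 10 * d) = 1 / (n:ℝ) ^ 6 / 384 := by
      rw [hd, hXr]
      push_cast
      field_simp
      ring
    rw [h3] at h2
    linarith
  have hM0 : 0 < M := by
    have : (0:ℝ) < 1 / (n:ℝ) ^ 6 := by positivity
    linarith
  have hSup : MeasureTheory.volume.real S ≤ 385 * M := by
    have h1 := MeasureTheory.measureReal_union_le (μ := MeasureTheory.volume)
      (Set.Ico (0:ℝ) (1 / (n:ℝ) ^ 6))
      (⋃ t ∈ Finset.Ico (n ^ 8) (2 * n ^ 8), Pool.Agent.H449Z.Weyl.A (1 + n ^ 2 * t) d)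
    have h2 := MeasureTheory.measureReal_biUnion_finset_le (μ := MeasureTheory.volume)
      (Finset.Ico (n ^ 8) (2 * n ^ 8)) (fun t => Pool.Agent.H449Z.Weyl.A (1 + n ^ 2 * t) d)
    have h3 : MeasureTheory.volume.real (Set.Ico (0:ℝ) (1 / (n:ℝ) ^ 6)) = 1 / (n:ℝ) ^ 6 := by
      simp
    rw [h3] at h1
    linarith
  have hSlow : 1 / (n:ℝ) ^ 6 ≤ MeasureTheory.volume.real S := by
    have h3 : MeasureTheory.volume.real (Set.Ico (0:ℝ) (1 / (n:ℝ) ^ 6)) = 1 / (n:ℝ) ^ 6 := by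
      simp
    rw [← h3]
    exact MeasureTheory.measureReal_mono Set.subset_union_left hSfin
  have hlow := Pool.Agent.H449Z.Weyl.main_lower X (n ^ 2) (n ^ 8) hX0 (by positivity) hXJ S hS1
    (fun t ht => (Set.subset_biUnion_of_mem (u := fun t =>
      Pool.Agent.H449Z.Weyl.A (1 + n ^ 2 * t) d) (Finset.mem_coe.2 ht)).trans
        Set.subset_union_right)
  rw [← Pool.Agent.H449Z.Weyl.B_int X S hS1] at hlow
  have h := hC X hX0 (Pool.Agent.H449Z.Weyl.B S) (Pool.Agent.H449Z.Weyl.B_meas S hSm)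
    (Pool.Agent.H449Z.Weyl.B_sub S hS1) (by
      rw [Pool.Agent.H449Z.Weyl.B_vol S hSm]
      refine le_trans ?_ hSlow
      have e1 : (1 - ((2:ℕ):ℝ) * (((2:ℕ):ℝ) + 1) / 4) = -(1/2) := by norm_num
      rw [e1, one_mul, Real.rpow_neg hX0r.le, ← Real.sqrt_eq_rpow, ← one_div]
      apply one_div_le_one_div_of_le (by positivity)
      apply Real.le_sqrt_of_sq_le
      rw [hXr]
      have : (0:ℝ) < (n:ℝ) ^ 12 := by positivity
      nlinarith)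
  rw [Pool.Agent.H449Z.Weyl.B_vol S hSm] at h
  have e2 : (2 * 2 - ((2:ℕ):ℝ) * (((2:ℕ):ℝ) + 1) / 2) = 1 := by norm_num
  have e3 : ((2:ℝ) * 2) = ((4:ℕ):ℝ) := by norm_num
  rw [e2, e3, Real.rpow_one, Real.rpow_two] at h
  simp only [Real.rpow_natCast] at h
  have e4 : ∀ α : Fin 2 → ℝ, (∑ x ∈ Finset.Icc 1 X,
      Complex.exp (2 * (Real.pi:ℂ) * Complex.I *
        ∑ j : Fin 2, (α j : ℂ) * (x:ℂ) ^ ((j:ℕ) + 1))) =
      Pool.Agent.H449Z.Weyl.F X (α 0) (α 1) := by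
    intro α
    unfold Pool.Agent.H449Z.Weyl.F Pool.Agent.H449Z.Weyl.e
    refine Finset.sum_congr rfl fun x _ => ?_
    congr 2
    simp [Fin.sum_univ_two]
  simp only [e4] at h
  have hXe : (X:ℝ) ^ ((1:ℝ)/12) ≤ 2 * n := by
    have a1 : (X:ℝ) ≤ (2 * (n:ℝ)) ^ 12 := by
      rw [hXr]
      have : (0:ℝ) < (n:ℝ) ^ 12 := by positivity
      nlinarith
    calc (X:ℝ) ^ ((1:ℝ)/12) ≤ ((2 * (n:ℝ)) ^ 12) ^ ((1:ℝ)/12) := by gcongr
      _ = 2 * n := by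
        rw [show ((1:ℝ)/12) = ((12:ℕ):ℝ)⁻¹ by norm_num]
        exact Real.pow_rpow_inv_natCast (by positivity) (by norm_num)
  have hXM : 1 ≤ (X:ℝ) * M := by
    have a1 : (64:ℝ) ≤ (n:ℝ) ^ 6 := by
      calc (64:ℝ) = 2 ^ 6 := by norm_num
        _ ≤ (n:ℝ) ^ 6 := by gcongr
    have a2 : (X:ℝ) * (1 / (n:ℝ) ^ 6) = 8 * (n:ℝ) ^ 6 := by
      rw [hXr]; field_simp
    have a3 : (X:ℝ) * (1 / (n:ℝ) ^ 6) ≤ X * (384 * M) := by gcongr
    nlinarith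
  have hv0 : 0 ≤ MeasureTheory.volume.real S := MeasureTheory.measureReal_nonneg
  have hR : (X:ℝ) ^ 2 * MeasureTheory.volume.real S + X ≤ 386 * ((X:ℝ) ^ 2 * M) := by
    have a1 : (X:ℝ) ^ 2 * MeasureTheory.volume.real S ≤ (X:ℝ) ^ 2 * (385 * M) := by gcongr
    have a2 : (X:ℝ) * 1 ≤ X * (X * M) := by gcongr
    nlinarith
  have hfin : C * (X:ℝ) ^ ((1:ℝ)/12) * ((X:ℝ) ^ 2 * MeasureTheory.volume.real S + X) ≤
      |C| * (2 * n) * (386 * ((X:ℝ) ^ 2 * M)) := by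
    calc C * (X:ℝ) ^ ((1:ℝ)/12) * ((X:ℝ) ^ 2 * MeasureTheory.volume.real S + X)
        ≤ |C| * (X:ℝ) ^ ((1:ℝ)/12) * ((X:ℝ) ^ 2 * MeasureTheory.volume.real S + X) := by
          gcongr
          exact le_abs_self C
      _ ≤ _ := by gcongr
  have hall := (hlow.trans h).trans hfin
  have hP : 0 < (X:ℝ) ^ 2 * M := by positivity
  push_cast at hall
  have hlast : (n:ℝ) * ((n:ℝ) - 12352 * |C|) * ((X:ℝ) ^ 2 * M) ≤ 0 := by nlinarith
  have hpos : 0 < (n:ℝ) * ((n:ℝ) - 12352 * |C|) * ((X:ℝ) ^ 2 * M) := by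
    have : 0 < (n:ℝ) - 12352 * |C| := by linarith
    positivity
  linarith

end Pool.Agent.H519Z.Vino
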