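import Pool.Agent.H519Z.Vino.Defs
import Pool.Agent.H519Z.Vino.Large

open MeasureTheory

namespace Pool.Agent.H519Z.Vino

lemma weyl_cont (k : ℕ) (X : ℝ) : Continuous fun α : Fin k → ℝ => weyl k α X := by
  unfold weyl
  fun_prop

lemma integrable_pow (k : ℕ) (X : ℝ) (s : ℝ) (hs : 0 < s) (B : Set (Fin k → ℝ))
    (hB : B ⊆ Set.pi Set.univ (fun _ => Set.Ico (0 : ℝ) 1)) :
    IntegrableOn (fun α => ‖weyl k α X‖ ^ (2 * s)) B := by
  have hc : Continuous fun α : Fin k → ℝ => ‖weyl k α X‖ ^ (2 * s) :=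
    (weyl_cont k X).norm.rpow_const (fun _ => Or.inr (by positivity))
  have hK : IsCompact (Set.pi Set.univ (fun _ : Fin k => Set.Icc (0 : ℝ) 1)) :=
    isCompact_univ_pi fun _ => isCompact_Icc
  exact (hc.continuousOn.integrableOn_compact hK).mono_set
    (hB.trans (Set.pi_mono fun _ _ => Set.Ico_subset_Icc_self))

lemma pt (t L a b : ℝ) (ht : 0 ≤ t) (hL : 0 < L) (ha : 0 < a) (hab : a ≤ b) :
    t ^ a ≤ L ^ a + L ^ (a - b) * t ^ b := by
  rcases le_total t L with h | h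
  · have h1 : t ^ a ≤ L ^ a := Real.rpow_le_rpow ht h ha.le
    have h2 : 0 ≤ L ^ (a - b) * t ^ b := by positivity
    linarith
  · have ht0 : 0 < t := lt_of_lt_of_le hL h
    have h1 : t ^ (a - b) ≤ L ^ (a - b) := Real.rpow_le_rpow_of_nonpos hL h (by linarith)
    have h2 : t ^ a = t ^ (a - b) * t ^ b := by
      rw [← Real.rpow_add ht0]; congr 1; ring
    have h3 : t ^ (a - b) * t ^ b ≤ L ^ (a - b) * t ^ b :=
      mul_le_mul_of_nonneg_right h1 (by positivity)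
    have h4 : 0 ≤ L ^ a := by positivity
    linarith

theorem main : ∃ k : ℕ, 1 ≤ k ∧ ∃ s : ℝ, (k : ℝ) * ((k : ℝ) + 1) / 4 + 1 ≤ s ∧ ∃ ε : ℝ, 0 < ε ∧
    ∀ C : ℝ, ∃ X : ℝ, 1 ≤ X ∧ ∃ B : Set (Fin k → ℝ), MeasurableSet B ∧
      B ⊆ Set.pi Set.univ (fun _ => Set.Ico (0 : ℝ) 1) ∧
      C * X ^ ε * (X ^ s * (volume B).toReal + X ^ (2 * s - (k : ℝ) * ((k : ℝ) + 1) / 2))
        < meanValue s k X B := by
  by_contra H
  push Not at H
  apply not_large_measure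
  intro k hk s hs c hc ε hε
  set s₀ : ℝ := (k : ℝ) * ((k : ℝ) + 1) / 4 + 1 with hs₀
  have hfl : ∀ (X : ℕ) (α : Fin k → ℝ), weyl k α X = ∑ x ∈ Finset.Icc 1 X,
      Complex.exp (2 * (Real.pi : ℂ) * Complex.I *
        ∑ j : Fin k, (α j : ℂ) * (x : ℂ) ^ ((j : ℕ) + 1)) := by
    intro X α
    unfold weyl
    rw [Nat.floor_natCast]
  rcases le_total s₀ s with h | h
  · obtain ⟨C, hC⟩ := H k hk s h ε hε
    refine ⟨C, fun X hX B hBm hB _ => ?_⟩
    have := hC X (by exact_mod_cast hX) B hBm hB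
    simpa only [meanValue, hfl] using this
  · obtain ⟨C, hC⟩ := H k hk s₀ le_rfl ε hε
    refine ⟨1 + |C| * (1 + 1 / c), fun X hX B hBm hB hm => ?_⟩
    have hX1 : (1 : ℝ) ≤ X := by exact_mod_cast hX
    have hX0 : (0 : ℝ) < X := by linarith
    have h1 := hC X hX1 B hBm hB
    have hs0pos : 0 < s₀ := by linarith
    set m : ℝ := (volume B).toReal with hmdef
    have hm0 : 0 ≤ m := ENNReal.toReal_nonneg
    have hfin : volume B ≠ ⊤ := by
      have hK : IsCompact (Set.pi Set.univ (fun _ : Fin k => Set.Icc (0 : ℝ) 1)) :=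
        isCompact_univ_pi fun _ => isCompact_Icc
      exact ne_top_of_le_ne_top hK.measure_lt_top.ne
        (measure_mono (hB.trans (Set.pi_mono fun _ _ => Set.Ico_subset_Icc_self)))
    have hI0 := integrable_pow k X s₀ hs0pos B hB
    have hI := integrable_pow k X s hs B hB
    have hconst : IntegrableOn (fun _ : Fin k → ℝ => (X : ℝ) ^ s) B :=
      integrableOn_const hfin
    have hL : ∀ a : ℝ, (Real.sqrt X) ^ (2 * a) = (X : ℝ) ^ a := by
      intro a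
      rw [Real.sqrt_eq_rpow, ← Real.rpow_mul hX0.le]
      congr 1; ring
    have h2 : meanValue s k X B ≤ (X : ℝ) ^ s * m + (X : ℝ) ^ (s - s₀) * meanValue s₀ k X B := by
      unfold meanValue
      calc ∫ α in B, ‖weyl k α X‖ ^ (2 * s)
          ≤ ∫ α in B, ((X : ℝ) ^ s + (X : ℝ) ^ (s - s₀) * ‖weyl k α X‖ ^ (2 * s₀)) := by
            apply integral_mono hI (hconst.add (hI0.const_mul _))
            intro α
            have := pt ‖weyl k α X‖ (Real.sqrt X) (2 * s) (2 * s₀) (norm_nonneg _)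
              (Real.sqrt_pos.2 hX0) (by positivity) (by linarith)
            rw [← mul_sub, hL, hL] at this
            exact this
        _ = _ := by
            rw [integral_add hconst (hI0.const_mul _), integral_const_mul, setIntegral_const]
            simp only [smul_eq_mul, Measure.real, hmdef]
            ring
    have e1 : (X : ℝ) ^ (s - s₀) * (X : ℝ) ^ s₀ = (X : ℝ) ^ s := by
      rw [← Real.rpow_add hX0]; congr 1; ring
    have e2 : (X : ℝ) ^ (s - s₀) * (X : ℝ) ^ (2 * s₀ - (k : ℝ) * ((k : ℝ) + 1) / 2) =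
        (X : ℝ) ^ s * (X : ℝ) ^ (1 - (k : ℝ) * ((k : ℝ) + 1) / 4) := by
      rw [← Real.rpow_add hX0, ← Real.rpow_add hX0]; congr 1; rw [hs₀]; ring
    have hP : 0 < (X : ℝ) ^ s := by positivity
    have hE : 1 ≤ (X : ℝ) ^ ε := Real.one_le_rpow hX1 hε.le
    have hQ : 0 < (X : ℝ) ^ (s - s₀) := by positivity
    have hR : 0 ≤ (X : ℝ) ^ (2 * s - (k : ℝ) * ((k : ℝ) + 1) / 2) := by positivity
    have hm' : (X : ℝ) ^ (1 - (k : ℝ) * ((k : ℝ) + 1) / 4) ≤ m * (1 / c) := by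
      rw [mul_one_div, le_div_iff₀ hc]; linarith
    have h3 : meanValue s₀ k X B ≤ |C| * (X : ℝ) ^ ε * ((X : ℝ) ^ s₀ * m +
        (X : ℝ) ^ (2 * s₀ - (k : ℝ) * ((k : ℝ) + 1) / 2)) := by
      refine h1.trans ?_
      gcongr
      exact le_abs_self C
    have h4 : (X : ℝ) ^ (s - s₀) * meanValue s₀ k X B ≤
        |C| * (X : ℝ) ^ ε * ((X : ℝ) ^ s * m * (1 + 1 / c)) := by
      calc (X : ℝ) ^ (s - s₀) * meanValue s₀ k X B
          ≤ (X : ℝ) ^ (s - s₀) * (|C| * (X : ℝ) ^ ε * ((X : ℝ) ^ s₀ * m +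
            (X : ℝ) ^ (2 * s₀ - (k : ℝ) * ((k : ℝ) + 1) / 2))) := by gcongr
        _ = |C| * (X : ℝ) ^ ε * (((X : ℝ) ^ (s - s₀) * (X : ℝ) ^ s₀) * m +
            (X : ℝ) ^ (s - s₀) * (X : ℝ) ^ (2 * s₀ - (k : ℝ) * ((k : ℝ) + 1) / 2)) := by ring
        _ = |C| * (X : ℝ) ^ ε * ((X : ℝ) ^ s * m +
            (X : ℝ) ^ s * (X : ℝ) ^ (1 - (k : ℝ) * ((k : ℝ) + 1) / 4)) := by rw [e1, e2]
        _ ≤ |C| * (X : ℝ) ^ ε * ((X : ℝ) ^ s * m + (X : ℝ) ^ s * (m * (1 / c))) := by gcongr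
        _ = _ := by ring
    have h5 : meanValue s k X B ≤ (1 + |C| * (1 + 1 / c)) * (X : ℝ) ^ ε * ((X : ℝ) ^ s * m) := by
      have h6 : (X : ℝ) ^ s * m ≤ (X : ℝ) ^ ε * ((X : ℝ) ^ s * m) :=
        le_mul_of_one_le_left (by positivity) hE
      nlinarith
    have h7 : (1 + |C| * (1 + 1 / c)) * (X : ℝ) ^ ε * ((X : ℝ) ^ s * m) ≤
        (1 + |C| * (1 + 1 / c)) * (X : ℝ) ^ ε * ((X : ℝ) ^ s * m +
          (X : ℝ) ^ (2 * s - (k : ℝ) * ((k : ℝ) + 1) / 2)) := by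
      gcongr
      linarith
    have := h5.trans h7
    simpa only [meanValue, hfl] using this

end Pool.Agent.H519Z.Vino
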